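import Pool.Agent.Helper13.PD.SEQ
import Pool.Agent.Helper51.PD.EXT
import Pool.Agent.Helper84.PD.ITV

/-!
# Posets with cover graph of path-width two have dimension at most eight
-/

set_option autoImplicit false

namespace Pool.Agent.Helper87.NW

open Pool.Agent.Helper66.PD

/-- `z` covers the boundary between the positions `u` and `u + 1` -/
def cv {P : Type} (l r : P → ℕ) (z : P) (u : ℕ) : Prop := l z ≤ u ∧ u < r z

/-- normalized interval representation of width two -/
structure G2 (P : Type) [PartialOrder P] (l r : P → ℕ) : Prop where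
  inj : ∀ x y, l x = l y → x = y
  adj : ∀ x y, x ⋖ y → l x ≤ r y ∧ l y ≤ r x
  bag : ∀ p a b c d, l a ≤ p → p ≤ r a → l b ≤ p → p ≤ r b → l c ≤ p → p ≤ r c →
    l d ≤ p → p ≤ r d → a ≠ b → a ≠ c → a ≠ d → b ≠ c → b ≠ d → c ≠ d → False
  sur : ∀ u a, l a ≤ u → u < r a → ∃ z, l z = u + 1 ∧ u + 1 ≤ r z

section basics

variable {P : Type} [PartialOrder P] {l r : P → ℕ}

theorem G2.bd (N : G2 P l r) {u : ℕ} {a b c : P} (ha : cv l r a u) (hb : cv l r b u)
    (hc : cv l r c u) (h1 : a ≠ b) (h2 : a ≠ c) : b = c := by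
  by_contra h3
  obtain ⟨z, hz, hz'⟩ := N.sur u a ha.1 ha.2
  have e : ∀ w, cv l r w u → w ≠ z := by
    rintro w hw rfl
    have := hw.1
    omega
  exact N.bag (u + 1) a b c z (Nat.le_succ_of_le ha.1) ha.2 (Nat.le_succ_of_le hb.1) hb.2
    (Nat.le_succ_of_le hc.1) hc.2 hz.le hz' h1 h2 (e a ha) h3 (e b hb) (e c hc)

theorem le_rtg' [Fintype P] {x y : P} (h : x ≤ y) : Relation.ReflTransGen (· ⋖ ·) x y := by
  classical
  let _ : LocallyFiniteOrder P := Fintype.toLocallyFiniteOrder
  exact le_iff_reflTransGen_covBy.1 h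

theorem rtg_le' {x y : P} (h : Relation.ReflTransGen (· ⋖ ·) x y) : x ≤ y := by
  induction h with
  | refl => exact le_rfl
  | tail _ h1 ih => exact ih.trans h1.lt.le

theorem G2.cro' (N : G2 P l r) {x y : P} (h : Relation.ReflTransGen (· ⋖ ·) x y) (u : ℕ) :
    (l x ≤ u → u < l y → ∃ b, x ≤ b ∧ b ≤ y ∧ cv l r b u) ∧
    (l y ≤ u → u < l x → ∃ b, x ≤ b ∧ b ≤ y ∧ cv l r b u) := by
  induction h with
  | refl => exact ⟨fun h1 h2 => by omega, fun h1 h2 => by omega⟩
  | @tail y' y hxy hc ih =>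
    have hxy' := rtg_le' hxy
    have hle := hc.lt.le
    obtain ⟨q1, q2⟩ := N.adj _ _ hc
    constructor
    · intro h1 h2
      by_cases h3 : u < l y'
      · obtain ⟨b, b1, b2, b3⟩ := ih.1 h1 h3
        exact ⟨b, b1, b2.trans hle, b3⟩
      · exact ⟨y', hxy', hle, by omega, by omega⟩
    · intro h1 h2
      by_cases h3 : l y' ≤ u
      · obtain ⟨b, b1, b2, b3⟩ := ih.2 h3 h2
        exact ⟨b, b1, b2.trans hle, b3⟩
      · exact ⟨y, hxy'.trans hle, le_rfl, h1, by omega⟩

theorem G2.cro [Fintype P] (N : G2 P l r) {x y : P} (h : x ≤ y) {u : ℕ} (h1 : l x ≤ u)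
    (h2 : u < l y) : ∃ b, x ≤ b ∧ b ≤ y ∧ cv l r b u := (N.cro' (le_rtg' h) u).1 h1 h2

theorem G2.crol [Fintype P] (N : G2 P l r) {x y : P} (h : x ≤ y) {u : ℕ} (h1 : l y ≤ u)
    (h2 : u < l x) : ∃ b, x ≤ b ∧ b ≤ y ∧ cv l r b u := (N.cro' (le_rtg' h) u).2 h1 h2

/-- two-colouring of the elements -/
theorem G2.col (N : G2 P l r) (M : ℕ) (hM : ∀ x, l x < M) : ∃ col : P → Bool,
    ∀ y z u, y ≠ z → cv l r y u → cv l r z u → col y ≠ col z := by
  classical
  have key : ∀ n : ℕ, ∃ col : P → Bool, ∀ y z, l y < l z → l z < n → l z < r y → l z < r z →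
      col y ≠ col z := by
    intro n
    induction n with
    | zero => exact ⟨fun _ => false, fun y z _ h => absurd h (Nat.not_lt_zero _)⟩
    | succ n ih =>
      obtain ⟨col, hcol⟩ := ih
      by_cases h : ∃ y z, l y < l z ∧ l z = n ∧ l z < r y ∧ l z < r z
      · obtain ⟨y, z, h1, h2, h3, h4⟩ := h
        refine ⟨Function.update col z (!col y), ?_⟩
        intro y' z' g1 g2 g3 g4
        by_cases hz : l z' = n
        · have e : z' = z := N.inj _ _ (hz.trans h2.symm)
          subst e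
          have e2 : y' = y := by
            have n1 : z' ≠ y' := by rintro rfl; omega
            have n2 : z' ≠ y := by rintro rfl; omega
            exact N.bd (u := l z') ⟨le_rfl, h4⟩ ⟨g1.le, g3⟩ ⟨h1.le, h3⟩ n1 n2
          subst e2
          have n3 : y' ≠ z' := by rintro rfl; omega
          rw [Function.update_self, Function.update_of_ne n3]
          cases col y' <;> simp
        · have n1 : y' ≠ z := by rintro rfl; omega
          have n2 : z' ≠ z := by rintro rfl; omega
          rw [Function.update_of_ne n1, Function.update_of_ne n2]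
          exact hcol y' z' g1 (by omega) g3 g4
      · refine ⟨col, ?_⟩
        intro y' z' g1 g2 g3 g4
        by_cases hz : l z' = n
        · exact absurd ⟨y', z', g1, hz, g3, g4⟩ h
        · exact hcol y' z' g1 (by omega) g3 g4
  obtain ⟨col, hcol⟩ := key M
  refine ⟨col, ?_⟩
  intro y z u hyz hy hz
  rcases lt_trichotomy (l y) (l z) with h | h | h
  · exact hcol y z h (hM z) (lt_of_le_of_lt hz.1 hy.2) (lt_of_le_of_lt hz.1 hz.2)
  · exact absurd (N.inj _ _ h) hyz
  · exact (hcol z y h (hM y) (lt_of_le_of_lt hy.1 hz.2) (lt_of_le_of_lt hy.1 hy.2)).symm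

theorem bool_eq {a b c : Bool} (h1 : a ≠ c) (h2 : b ≠ c) : a = b := by
  cases a <;> cases b <;> cases c <;> simp_all

variable {col : P → Bool}

/-- one step of constancy -/
theorem G2.step (N : G2 P l r) (hcol : ∀ y z u, y ≠ z → cv l r y u → cv l r z u → col y ≠ col z)
    (F G : P → Prop) (hFG : ∀ z, F z → ¬ G z) {u : ℕ} {f f' g g' : P} (hf : F f) (hf' : F f')
    (hg : G g) (hg' : G g') (cf : cv l r f u) (cf' : cv l r f' (u + 1)) (cg : cv l r g u)
    (cg' : cv l r g' (u + 1)) : col f = col f' := by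
  by_cases h : f = f'
  · rw [h]
  have n1 : f ≠ g := by rintro rfl; exact hFG _ hf hg
  have n2 : f ≠ g' := by rintro rfl; exact hFG _ hf hg'
  have n3 : f' ≠ g := by rintro rfl; exact hFG _ hf' hg
  have n4 : f' ≠ g' := by rintro rfl; exact hFG _ hf' hg'
  have e : g = g' := by
    by_contra hgg
    exact N.bag (u + 1) f f' g g' (Nat.le_succ_of_le cf.1) cf.2 cf'.1 cf'.2.le
      (Nat.le_succ_of_le cg.1) cg.2 cg'.1 cg'.2.le h n1 n2 n3 n4 hgg
  subst e
  exact bool_eq (hcol f g u n1 cf cg) (hcol f' g (u + 1) n4 cf' cg')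

theorem G2.const (N : G2 P l r) (hcol : ∀ y z u, y ≠ z → cv l r y u → cv l r z u → col y ≠ col z)
    (F G : P → Prop) (hFG : ∀ z, F z → ¬ G z) {s t : ℕ}
    (hF : ∀ u, s ≤ u → u < t → ∃ z, F z ∧ cv l r z u)
    (hG : ∀ u, s ≤ u → u < t → ∃ z, G z ∧ cv l r z u) :
    ∀ j u f f', s ≤ u → u + j < t → F f → cv l r f u → F f' → cv l r f' (u + j) →
      col f = col f' := by
  intro j
  induction j with
  | zero =>
    intro u f f' h1 h2 hf cf hf' cf'
    obtain ⟨g, hg, cg⟩ := hG u h1 h2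
    have n1 : g ≠ f := by rintro rfl; exact hFG _ hf hg
    have n2 : g ≠ f' := by rintro rfl; exact hFG _ hf' hg
    rw [N.bd cg cf cf' n1 n2]
  | succ j ih =>
    intro u f f' h1 h2 hf cf hf' cf'
    obtain ⟨f2, hf2, cf2⟩ := hF (u + j) (by omega) (by omega)
    obtain ⟨g2, hg2, cg2⟩ := hG (u + j) (by omega) (by omega)
    obtain ⟨g3, hg3, cg3⟩ := hG (u + j + 1) (by omega) (by omega)
    rw [ih u f f2 h1 (by omega) hf cf hf2 cf2]
    exact N.step hcol F G hFG hf2 hf' hg2 hg3 cf2 cf' cg2 cg3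

theorem G2.const' (N : G2 P l r) (hcol : ∀ y z u, y ≠ z → cv l r y u → cv l r z u → col y ≠ col z)
    (F G : P → Prop) (hFG : ∀ z, F z → ¬ G z) {s t : ℕ}
    (hF : ∀ u, s ≤ u → u < t → ∃ z, F z ∧ cv l r z u)
    (hG : ∀ u, s ≤ u → u < t → ∃ z, G z ∧ cv l r z u)
    {u v : ℕ} {f f' : P} (h1 : s ≤ u) (huv : u ≤ v) (h2 : v < t) (hf : F f) (cf : cv l r f u)
    (hf' : F f') (cf' : cv l r f' v) : col f = col f' := by
  obtain ⟨j, rfl⟩ := Nat.exists_eq_add_of_le huv
  exact N.const hcol F G hFG hF hG j u f f' h1 h2 hf cf hf' cf'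

end basics

section kinds

variable {P : Type} [PartialOrder P]

/-- kind A -/
def SA (l r : P → ℕ) (x y : P) : Prop :=
  ¬ x ≤ y ∧ l x < l y ∧ ∃ u, l x ≤ u ∧ u < l y ∧ ∀ a, x ≤ a → ¬ cv l r a u

/-- kind B -/
def SB (l r : P → ℕ) (x y : P) : Prop :=
  ¬ x ≤ y ∧ l x < l y ∧ ∃ u, l x ≤ u ∧ u < l y ∧ ∀ b, b ≤ y → ¬ cv l r b u

/-- kind C -/
def SC (l r : P → ℕ) (col : P → Bool) (c : Bool) (x y : P) : Prop :=
  ¬ x ≤ y ∧ l x < l y ∧ ∀ u, l x ≤ u → u < l y → ∃ a b, x ≤ a ∧ b ≤ y ∧ cv l r a u ∧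
    cv l r b u ∧ col a = c ∧ col b = !c

variable {l r : P → ℕ} {col : P → Bool}

theorem G2.kinds (N : G2 P l r)
    (hcol : ∀ y z u, y ≠ z → cv l r y u → cv l r z u → col y ≠ col z) {x y : P} (h : ¬ x ≤ y)
    (hl : l x < l y) : SA l r x y ∨ SB l r x y ∨ ∃ c, SC l r col c x y := by
  by_cases hA : SA l r x y
  · exact Or.inl hA
  by_cases hB : SB l r x y
  · exact Or.inr (Or.inl hB)
  refine Or.inr (Or.inr ?_)
  have hF : ∀ u, l x ≤ u → u < l y → ∃ z, x ≤ z ∧ cv l r z u := by
    intro u h1 h2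
    by_contra hc
    exact hA ⟨h, hl, u, h1, h2, fun a ha hcv => hc ⟨a, ha, hcv⟩⟩
  have hG : ∀ u, l x ≤ u → u < l y → ∃ z, z ≤ y ∧ cv l r z u := by
    intro u h1 h2
    by_contra hc
    exact hB ⟨h, hl, u, h1, h2, fun a ha hcv => hc ⟨a, ha, hcv⟩⟩
  obtain ⟨a0, ha0, ca0⟩ := hF (l x) le_rfl hl
  refine ⟨col a0, h, hl, fun u h1 h2 => ?_⟩
  obtain ⟨a, ha, ca⟩ := hF u h1 h2
  obtain ⟨b, hb, cb⟩ := hG u h1 h2
  have e : col a0 = col a := N.const' hcol (fun z => x ≤ z) (fun z => z ≤ y)
    (fun z h1 h2 => h (h1.trans h2)) hF hG le_rfl h1 h2 ha0 ca0 ha ca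
  refine ⟨a, b, ha, hb, ca, cb, e.symm, ?_⟩
  have n1 : a ≠ b := by rintro rfl; exact h (ha.trans hb)
  have := hcol a b u n1 ca cb
  rw [e]
  cases h1 : col a <;> cases h2 : col b <;> simp_all

theorem G2.uniq (N : G2 P l r) {c : Bool} {x y z : P} {u : ℕ} (hS : SC l r col c x y)
    (h1 : l x ≤ u) (h2 : u < l y) (hz : cv l r z u) :
    (x ≤ z ∧ col z = c) ∨ (z ≤ y ∧ col z = !c) := by
  obtain ⟨a, b, ha, hb, ca, cb, ea, eb⟩ := hS.2.2 u h1 h2
  have n1 : a ≠ b := by
    rintro rfl
    exact hS.1 (ha.trans hb)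
  by_cases h : a = z
  · subst h; exact Or.inl ⟨ha, ea⟩
  · have := N.bd ca cb hz n1 h
    subst this
    exact Or.inr ⟨hb, eb⟩

variable [Fintype P]

theorem G2.disj (N : G2 P l r) {c : Bool} {x y x' y' : P} (hS : SC l r col c x y)
    (hS' : SC l r col c x' y') (h : x ≤ y') {u : ℕ} (h1 : l x ≤ u) (h2 : u < l y)
    (h3 : l x' ≤ u) (h4 : u < l y') : False := by
  obtain ⟨d, d1, d2, d3⟩ := N.cro h h1 h4
  rcases N.uniq hS h1 h2 d3 with ⟨-, e⟩ | ⟨e, -⟩
  · rcases N.uniq hS' h3 h4 d3 with ⟨e', -⟩ | ⟨-, e'⟩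
    · exact hS'.1 (e'.trans d2)
    · rw [e] at e'
      cases c <;> simp at e'
  · exact hS.1 (d1.trans e)

theorem G2.disj' (N : G2 P l r) {c : Bool} {x y x' y' : P} (hS : SC l r col c x y)
    (hS' : SC l r col c x' y') (h : x ≤ y') : l y ≤ l x' ∨ l y' ≤ l x := by
  by_contra hc
  push Not at hc
  have a1 := hS.2.1
  have a2 := hS'.2.1
  exact N.disj hS hS' h (u := max (l x) (l x')) (le_max_left _ _) (by omega) (le_max_right _ _)
    (by omega)

theorem G2.two' (N : G2 P l r)
    (hcol : ∀ y z u, y ≠ z → cv l r y u → cv l r z u → col y ≠ col z) {c : Bool}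
    {x y x' y' : P} (hS : SC l r col c x y) (hS' : SC l r col c x' y') (h : x ≤ y') (h' : x' ≤ y)
    (hl : l y ≤ l x') : False := by
  have a1 := hS.2.1
  have a2 := hS'.2.1
  have hFG : ∀ z, (x ≤ z ∧ z ≤ y') → ¬ (z ≤ y ∨ x' ≤ z) := by
    rintro z ⟨z1, z2⟩ (z3 | z3)
    · exact hS.1 (z1.trans z3)
    · exact hS'.1 (z3.trans z2)
  have hF : ∀ u, l x ≤ u → u < l y' → ∃ z, (x ≤ z ∧ z ≤ y') ∧ cv l r z u := by
    intro u h1 h2
    obtain ⟨d, d1, d2, d3⟩ := N.cro h h1 h2
    exact ⟨d, ⟨d1, d2⟩, d3⟩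
  have hG : ∀ u, l x ≤ u → u < l y' → ∃ z, (z ≤ y ∨ x' ≤ z) ∧ cv l r z u := by
    intro u h1 h2
    by_cases h3 : u < l y
    · obtain ⟨a, b, ha, hb, ca, cb, ea, eb⟩ := hS.2.2 u h1 h3
      exact ⟨b, Or.inl hb, cb⟩
    · by_cases h4 : l x' ≤ u
      · obtain ⟨a, b, ha, hb, ca, cb, ea, eb⟩ := hS'.2.2 u h4 h2
        exact ⟨a, Or.inr ha, ca⟩
      · obtain ⟨d, d1, d2, d3⟩ := N.crol h' (u := u) (by omega) (by omega)
        exact ⟨d, Or.inr d1, d3⟩
  obtain ⟨f, hf, cf⟩ := hF (l x) le_rfl (by omega)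
  obtain ⟨f', hf', cf'⟩ := hF (l y' - 1) (by omega) (by omega)
  have e := N.const' hcol _ _ hFG hF hG (u := l x) (v := l y' - 1) le_rfl (by omega) (by omega)
    hf cf hf' cf'
  have e1 : col f = c := by
    rcases N.uniq hS le_rfl a1 cf with ⟨-, e⟩ | ⟨e, -⟩
    · exact e
    · exact absurd (hf.1.trans e) hS.1
  have e2 : col f' = !c := by
    rcases N.uniq hS' (u := l y' - 1) (by omega) (by omega) cf' with ⟨e, -⟩ | ⟨-, e⟩
    · exact absurd (e.trans hf'.2) hS'.1
    · exact e
  rw [e1, e2] at e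
  cases c <;> simp at e

theorem G2.two (N : G2 P l r)
    (hcol : ∀ y z u, y ≠ z → cv l r y u → cv l r z u → col y ≠ col z) {c : Bool}
    {x y x' y' : P} (hS : SC l r col c x y) (hS' : SC l r col c x' y') (h : x ≤ y')
    (h' : x' ≤ y) : False := by
  rcases N.disj' hS hS' h with hl | hl
  · exact N.two' hcol hS hS' h h' hl
  · exact N.two' hcol hS' hS h' h hl

omit [Fintype P] in
/-- `D = [x, y']` covers no boundary of another interval -/
theorem G2.miss (N : G2 P l r) {c : Bool} {x y' X Y d : P} {u : ℕ} (hS : SC l r col c X Y)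
    (h1 : l X ≤ u) (h2 : u < l Y) (hd1 : x ≤ d) (hd2 : d ≤ y') (hcv : cv l r d u)
    (n1 : ¬ X ≤ y') (n2 : ¬ x ≤ Y) : False := by
  rcases N.uniq hS h1 h2 hcv with ⟨e, -⟩ | ⟨e, -⟩
  · exact n1 (e.trans hd2)
  · exact n2 (hd1.trans e)

/-- no periodic alternating sequence of kind C -/
theorem G2.noC (N : G2 P l r)
    (hcol : ∀ y z u, y ≠ z → cv l r y u → cv l r z u → col y ≠ col z) (c : Bool) :
    ∀ (n : ℕ) (t : ℕ → P × P), 1 ≤ n → (∀ k, Alt P (SC l r col c) (t k) (t (k + 1))) →
      (∀ k, t (k + n) = t k) → False := by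
  intro n
  induction n using Nat.strong_induction_on with
  | _ n ih =>
  intro t hn hR hper
  have hS : ∀ k, SC l r col c (t k).1 (t k).2 := fun k => (hR k).1
  have hle : ∀ k, (t k).1 ≤ (t (k + 1)).2 := fun k => (hR k).2.2
  have hback : ∀ k, ¬ (t (k + 1)).1 ≤ (t k).2 := fun k h =>
    N.two hcol (hS k) (hS (k + 1)) (hle k) h
  have hn3 : 3 ≤ n := by
    by_contra hc
    interval_cases n
    · have := hle 0
      rw [hper 0] at this
      exact (hS 0).1 this
    · have := hle 1
      have e := hper 0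
      simp only [Nat.zero_add] at e
      simp only [Nat.reduceAdd] at this
      rw [e] at this
      exact hback 0 this
  have hskip : ∀ k, ¬ (t k).1 ≤ (t (k + 2)).2 := by
    intro k hk
    obtain ⟨m, rfl⟩ : ∃ m, n = m + 1 := ⟨n - 1, by omega⟩
    have hm : 0 < m := by omega
    refine ih m (by omega) (fun i => t (k + 2 + i % m)) (by omega) ?_ ?_
    · intro i
      have hlt := Nat.mod_lt i hm
      by_cases h : i % m + 1 = m
      · have e1 : (i + 1) % m = 0 := by
          rw [Nat.add_mod_eq_ite]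
          rcases Nat.lt_or_ge 1 m with h1 | h1
          · rw [Nat.mod_eq_of_lt h1]
            simp [h]
          · have : m = 1 := by omega
            omega
        show Alt P _ (t (k + 2 + i % m)) (t (k + 2 + (i + 1) % m))
        have e2 : k + 2 + i % m = k + (m + 1) := by omega
        rw [e1, e2, hper k]
        exact ⟨hS k, hS _, hk⟩
      · have e1 : (i + 1) % m = i % m + 1 := by
          rw [Nat.add_mod_eq_ite]
          rcases Nat.lt_or_ge 1 m with h1 | h1
          · rw [Nat.mod_eq_of_lt h1]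
            have : ¬ m ≤ i % m + 1 := by omega
            simp [this]
          · have : m = 1 := by omega
            omega
        show Alt P _ (t (k + 2 + i % m)) (t (k + 2 + (i + 1) % m))
        rw [e1]
        exact hR _
    · intro i
      show t (k + 2 + (i + m) % m) = t (k + 2 + i % m)
      rw [Nat.add_mod_right]
  -- the maximum of `l y`
  obtain ⟨K, hK⟩ : ∃ K, ∀ j, l (t j).2 ≤ l (t (K + 1)).2 := by
    obtain ⟨w, ⟨K, rfl⟩, hw⟩ := Set.exists_max_image (Set.range fun k => (t k).2) l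
      (Set.toFinite _) ⟨_, 0, rfl⟩
    refine ⟨K + (n - 1), fun j => ?_⟩
    have e : K + (n - 1) + 1 = K + n := by omega
    rw [e, hper K]
    exact hw _ ⟨j, rfl⟩
  have s0 := (hS K).2.1
  have s1 := (hS (K + 1)).2.1
  have s2 := (hS (K + 2)).2.1
  have m0 := hK K
  have m2 := hK (K + 2)
  -- `I_K` is left of `I_(K+1)`
  have g0 : l (t K).2 ≤ l (t (K + 1)).1 := by
    rcases N.disj' (hS K) (hS (K + 1)) (hle K) with h | h
    · exact h
    · omega
  have g2 : l (t (K + 2)).2 ≤ l (t (K + 1)).1 := by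
    rcases N.disj' (hS (K + 1)) (hS (K + 2)) (hle (K + 1)) with h | h
    · omega
    · exact h
  have g3 : l (t (K + 2)).2 ≤ l (t K).1 := by
    by_contra hc
    obtain ⟨d, d1, d2, d3⟩ := N.cro (hle K) (u := max (l (t K).1) (l (t (K + 2)).1))
      (le_max_left _ _) (by omega)
    exact N.miss (hS (K + 2)) (le_max_right _ _) (by omega) d1 d2 d3 (hback (K + 1)) (hskip K)
  obtain ⟨d, d1, d2, d3⟩ := N.crol (hle (K + 1)) (u := l (t K).1) g3 (by omega)
  exact N.miss (hS K) le_rfl s0 d1 d2 d3 (hskip K) (hback K)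

theorem G2.right (N : G2 P l r) : ∃ f : Fin 4 → P → ℕ, (∀ i x y, x ≤ y → f i x ≤ f i y) ∧
    ∀ x y, ¬ x ≤ y → l x < l y → ∃ i, f i y < f i x := by
  classical
  obtain ⟨col, hcol⟩ := N.col ((Finset.univ.sup l) + 1) (fun x =>
    Nat.lt_succ_of_le (Finset.le_sup (Finset.mem_univ x)))
  obtain ⟨fA, hA1, hA2⟩ := st_EXT P (SA l r) (fun x y h => h.1) (by
    have key : ∀ s t, Relation.TransGen (Alt P (SA l r)) s t → l t.2 < l s.2 := by
      have one : ∀ s t : P × P, Alt P (SA l r) s t → l t.2 < l s.2 := by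
        rintro s t ⟨⟨h1, h2, u, h3, h4, h5⟩, h6, h7⟩
        by_contra hc
        obtain ⟨d, d1, d2, d3⟩ := N.cro h7 h3 (by omega)
        exact h5 d d1 d3
      intro s t h
      induction h with
      | single h => exact one _ _ h
      | tail _ h ih => exact (one _ _ h).trans ih
    intro s h
    exact lt_irrefl _ (key s s h))
  obtain ⟨fB, hB1, hB2⟩ := st_EXT P (SB l r) (fun x y h => h.1) (by
    have key : ∀ s t, Relation.TransGen (Alt P (SB l r)) s t → l t.1 < l s.1 := by
      have one : ∀ s t : P × P, Alt P (SB l r) s t → l t.1 < l s.1 := by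
        rintro s t ⟨h6, ⟨h1, h2, u, h3, h4, h5⟩, h7⟩
        by_contra hc
        obtain ⟨d, d1, d2, d3⟩ := N.cro h7 (u := u) (by omega) h4
        exact h5 d d2 d3
      intro s t h
      induction h with
      | single h => exact one _ _ h
      | tail _ h ih => exact (one _ _ h).trans ih
    intro s h
    exact lt_irrefl _ (key s s h))
  have hC : ∀ c : Bool, ∃ f : P → ℕ, (∀ x y, x ≤ y → f x ≤ f y) ∧
      ∀ x y, SC l r col c x y → f y < f x := by
    intro c
    refine st_EXT P (SC l r col c) (fun x y h => h.1) ?_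
    intro s h
    obtain ⟨n, t, hn, ht, hp⟩ := st_SEQ _ _ s h
    exact N.noC hcol c n t hn ht hp
  choose fC hC1 hC2 using hC
  refine ⟨![fA, fB, fC true, fC false], ?_, ?_⟩
  · intro i x y h
    fin_cases i
    · exact hA1 x y h
    · exact hB1 x y h
    · exact hC1 true x y h
    · exact hC1 false x y h
  · intro x y h hl
    rcases N.kinds hcol h hl with h | h | ⟨c, h⟩
    · exact ⟨0, hA2 x y h⟩
    · exact ⟨1, hB2 x y h⟩
    · cases c
      · exact ⟨3, hC2 false x y h⟩
      · exact ⟨2, hC2 true x y h⟩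

end kinds

theorem G2.dual {P : Type} [PartialOrder P] {l r : P → ℕ} (N : G2 P l r) :
    G2 Pᵒᵈ (fun x => l (OrderDual.ofDual x)) (fun x => r (OrderDual.ofDual x)) where
  inj x y h := N.inj _ _ h
  adj x y h := by
    have := N.adj (OrderDual.ofDual y) (OrderDual.ofDual x) h.ofDual
    exact ⟨this.2, this.1⟩
  bag p a b c d h1 h2 h3 h4 h5 h6 h7 h8 n1 n2 n3 n4 n5 n6 :=
    N.bag p a b c d h1 h2 h3 h4 h5 h6 h7 h8 n1 n2 n3 n4 n5 n6
  sur u a h1 h2 := N.sur u a h1 h2

theorem G2.dim {P : Type} [PartialOrder P] [Fintype P] {l r : P → ℕ} (N : G2 P l r) :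
    DimLE P 8 := by
  classical
  obtain ⟨f, hf1, hf2⟩ := N.right
  obtain ⟨g, hg1, hg2⟩ := N.dual.right
  -- reverse `g`
  let M : ℕ := Finset.univ.sup fun i => Finset.univ.sup fun x : P => g i (OrderDual.toDual x)
  have hM : ∀ i (x : P), g i (OrderDual.toDual x) ≤ M := fun i x =>
    (Finset.le_sup (f := fun x : P => g i (OrderDual.toDual x)) (Finset.mem_univ x)).trans
      (Finset.le_sup (f := fun i => Finset.univ.sup fun x : P => g i (OrderDual.toDual x))
        (Finset.mem_univ i))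
  refine ⟨fun x i => if h : (i : ℕ) < 4 then f ⟨i, h⟩ x else
    M - g ⟨i - 4, by omega⟩ (OrderDual.toDual x), ?_⟩
  intro x y
  constructor
  · intro h i
    dsimp only
    split_ifs with hi
    · exact hf1 _ x y h
    · exact Nat.sub_le_sub_left (hg1 _ (OrderDual.toDual y) (OrderDual.toDual x) h) M
  · intro h
    by_contra hxy
    rcases lt_trichotomy (l x) (l y) with hl | hl | hl
    · obtain ⟨i, hi⟩ := hf2 x y hxy hl
      have h1 := h ⟨i, by omega⟩
      simp only [i.isLt, dif_pos] at h1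
      exact absurd hi (not_lt.2 h1)
    · exact hxy (N.inj x y hl).le
    · obtain ⟨i, hi⟩ := hg2 (OrderDual.toDual y) (OrderDual.toDual x) hxy hl
      have h1 := h ⟨i + 4, by omega⟩
      have e : ¬ ((i : ℕ) + 4 < 4) := by omega
      simp only [e, dif_neg, not_false_eq_true, Nat.add_sub_cancel] at h1
      have := hM i y
      have := hM i x
      have hi' : g i (OrderDual.toDual x) < g i (OrderDual.toDual y) := hi
      have h1' : M - g i (OrderDual.toDual x) ≤ M - g i (OrderDual.toDual y) := h1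
      omega

/-- normalization -/
theorem norm {P : Type} [PartialOrder P] [Fintype P] (hw : PathWidthLE (cov P) 2) :
    ∃ l r : P → ℕ, G2 P l r := by
  classical
  obtain ⟨m, l0, r0, hlr, -, hadj, hcard⟩ := st_ITV P 2 hw
  let n := Fintype.card P
  let e : P ≃ Fin n := Fintype.equivFin P
  let key : P → ℕ := fun x => l0 x * n + (e x : ℕ)
  have hkey : ∀ x y, key x = key y → x = y := by
    intro x y h
    have hx := (e x).isLt
    have hy := (e y).isLt
    have : (e x : ℕ) = e y := by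
      have h1 : key x % n = key y % n := by rw [h]
      simpa [key, Nat.add_mod, Nat.mod_eq_of_lt hx, Nat.mod_eq_of_lt hy] using h1
    exact e.injective (Fin.ext this)
  have hkl : ∀ x y, l0 x < l0 y → key x < key y := by
    intro x y h
    have hx := (e x).isLt
    have : (l0 x + 1) * n ≤ l0 y * n := Nat.mul_le_mul_right n h
    show l0 x * n + (e x : ℕ) < l0 y * n + (e y : ℕ)
    rw [Nat.add_mul, Nat.one_mul] at this
    omega
  let l : P → ℕ := fun x => (Finset.univ.filter fun y => key y < key x).card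
  let R : P → ℕ := fun x => (Finset.univ.filter fun y => l0 y ≤ r0 x).card
  have hmono : ∀ x y, key x < key y → l x < l y := by
    intro x y h
    apply Finset.card_lt_card
    rw [Finset.ssubset_iff_of_subset]
    · exact ⟨x, by simp [h], by simp⟩
    · intro z hz
      simp only [Finset.mem_filter, Finset.mem_univ, true_and] at hz ⊢
      exact hz.trans h
  have hinj : ∀ x y, l x = l y → x = y := by
    intro x y h
    apply hkey
    rcases lt_trichotomy (key x) (key y) with h1 | h1 | h1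
    · exact absurd h (ne_of_lt (hmono _ _ h1))
    · exact h1
    · exact absurd h (ne_of_gt (hmono _ _ h1))
  have hll : ∀ x y, l x ≤ l y → l0 x ≤ l0 y := by
    intro x y h
    by_contra hc
    exact absurd (hmono _ _ (hkl y x (not_le.1 hc))) (not_lt.2 h)
  have hR : ∀ z x, l z < R x ↔ l0 z ≤ r0 x := by
    intro z x
    constructor
    · intro h
      by_contra hc
      have : R x ≤ l z := by
        apply Finset.card_le_card
        intro y hy
        simp only [Finset.mem_filter, Finset.mem_univ, true_and] at hy ⊢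
        exact hkl y z (by omega)
      omega
    · intro h
      apply Finset.card_lt_card
      rw [Finset.ssubset_iff_of_subset]
      · exact ⟨z, by simp [h], by simp⟩
      · intro y hy
        simp only [Finset.mem_filter, Finset.mem_univ, true_and] at hy ⊢
        by_contra hc
        exact absurd (hkl z y (by omega)) (not_lt.2 hy.le)
  have hln : ∀ x, l x < n := by
    intro x
    have : l x < (Finset.univ : Finset P).card := by
      apply Finset.card_lt_card
      rw [Finset.ssubset_iff_of_subset (Finset.subset_univ _)]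
      exact ⟨x, Finset.mem_univ _, by simp⟩
    simpa [n] using this
  have hRn : ∀ x, R x ≤ n := by
    intro x
    have : R x ≤ (Finset.univ : Finset P).card := Finset.card_le_card (Finset.subset_univ _)
    simpa [n] using this
  have hsur : ∀ p, p < n → ∃ z, l z = p := by
    intro p hp
    have h1 : Finset.univ.image l = Finset.range n := by
      apply Finset.eq_of_subset_of_card_le
      · intro q hq
        obtain ⟨z, -, rfl⟩ := Finset.mem_image.1 hq
        exact Finset.mem_range.2 (hln z)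
      · rw [Finset.card_image_of_injective _ (fun x y h => hinj x y h)]
        simp [n]
    have h2 : p ∈ Finset.univ.image l := by rw [h1]; exact Finset.mem_range.2 hp
    obtain ⟨z, -, hz⟩ := Finset.mem_image.1 h2
    exact ⟨z, hz⟩
  have hR1 : ∀ x, 1 ≤ R x := fun x => by
    have := (hR x x).2 (hlr x)
    omega
  refine ⟨l, fun x => R x - 1, hinj, ?_, ?_, ?_⟩
  · intro x y h
    obtain ⟨h1, h2⟩ := hadj x y h
    have a1 := (hR x y).2 h1
    have a2 := (hR y x).2 h2
    exact ⟨by show l x ≤ R y - 1; omega, by show l y ≤ R x - 1; omega⟩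
  · intro p a b c d h1 h2 h3 h4 h5 h6 h7 h8 n1 n2 n3 n4 n5 n6
    have q1 := hR1 a
    have q2 := hRn a
    obtain ⟨z, rfl⟩ := hsur p (by omega)
    have hin : ∀ x, l x ≤ l z → l z ≤ R x - 1 →
        x ∈ Finset.univ.filter (fun x => l0 x ≤ l0 z ∧ l0 z ≤ r0 x) := by
      intro x hx1 hx2
      have := hR1 x
      simp only [Finset.mem_filter, Finset.mem_univ, true_and]
      exact ⟨hll x z hx1, (hR z x).1 (by omega)⟩
    have hsub : ({a, b, c, d} : Finset P) ⊆
        Finset.univ.filter (fun x => l0 x ≤ l0 z ∧ l0 z ≤ r0 x) := by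
      intro x hx
      simp only [Finset.mem_insert, Finset.mem_singleton] at hx
      rcases hx with rfl | rfl | rfl | rfl
      · exact hin _ h1 h2
      · exact hin _ h3 h4
      · exact hin _ h5 h6
      · exact hin _ h7 h8
    have h9 := (Finset.card_le_card hsub).trans (hcard (l0 z))
    have h10 : ({a, b, c, d} : Finset P).card = 4 := by
      rw [Finset.card_insert_of_notMem, Finset.card_insert_of_notMem,
        Finset.card_insert_of_notMem, Finset.card_singleton] <;> simp [*]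
    omega
  · intro u a h1 h2
    have q2 := hRn a
    obtain ⟨z, hz⟩ := hsur (u + 1) (by omega)
    refine ⟨z, hz, ?_⟩
    have := (hR z z).2 (hlr z)
    show u + 1 ≤ R z - 1
    omega

/-- **Path-width two**: dimension at most eight. -/
theorem pathwidth_two (P : Type) [PartialOrder P] [Fintype P] (hw : PathWidthLE (cov P) 2) :
    DimLE P 8 := by
  obtain ⟨l, r, N⟩ := norm hw
  exact N.dim

end Pool.Agent.Helper87.NW
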